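import Pool.Agent.Helper74.CW.Main

/-!
# MP_526055_co: weight distributions of linear sets with complementary weights

For a finite field `F` with `q` elements and an extension `K` of degree `n`: all weight distributions of the
linear sets `L_{S x T}` with `dim S = s`, `dim T = r`, when `r ≤ 2`, or `n - s ≤ 2`, or `n > 1` is prime to `30` and
`r = s = 3` or `r = s = n - 3`; and hence, for given `k` and `n`, all weight distributions of the linear sets of
rank `k` with complementary weights, when `k ≤ 5` or `k ≥ 2 n - 5`, and also for `k = 6` and `k = 2 n - 6` if `n > 1`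
is prime to `30`.
-/

namespace Pool.Agent.Results.MP_526055_co.WeightDistributions

open Module Pool.Agent.Helper74.CW

theorem result {F K : Type*} [Field F] [Finite F] [Field K] [Algebra F K]
    [FiniteDimensional F K] :
    (∀ s r : ℕ, 1 ≤ r → r ≤ s → s ≤ finrank F K →
      (r ≤ 2 ∨ finrank F K ≤ s + 2 ∨ (finrank F K ≠ 1 ∧ Nat.Coprime (finrank F K) 30 ∧
        ((r = 3 ∧ s = 3) ∨ (r + 3 = finrank F K ∧ s + 3 = finrank F K)))) →
      ∀ N : ℕ → ℕ, OccR F K s r N ↔ Tup F K s r N) ∧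
    (∀ k : ℕ, (k ≤ 5 ∨ 2 * finrank F K ≤ k + 5 ∨
      (finrank F K ≠ 1 ∧ Nat.Coprime (finrank F K) 30 ∧ (k ≤ 6 ∨ 2 * finrank F K ≤ k + 6))) →
      ∀ N : ℕ → ℕ, Occ F K k N ↔ ∃ s r : ℕ, s + r = k ∧ 1 ≤ r ∧ r ≤ s ∧ s ≤ finrank F K ∧
        Tup F K s r N) :=
  ⟨fun _ _ h1 h2 h3 h4 N => occR_iff h1 h2 h3 h4 N, fun _ h N => occ_iff h N⟩

end Pool.Agent.Results.MP_526055_co.WeightDistributions
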